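import Mathlib
import Pool.Agent.V7H81.ON.Inner

/-!
# Fluctuations of the boundary path of the `O(n)` loop model, for all `n > 0` and `x > 0`

The hexagonal lattice is drawn as a brick wall: the vertices are the points of `ℤ × ℤ`, the hexagon
`(i, j)` (`i + j` even) has the vertices `(i, j)`, `(i + 1, j)`, `(i + 2, j)`, `(i, j + 1)`,
`(i + 1, j + 1)`, `(i + 2, j + 1)`.  A domain is any finite set `D` of hexagons, `a` and `b` are two
vertices; a configuration is a set of edges of the domain such that all degrees are `0` or `2`, except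
those of `a` and `b`, which are `1`; it has the weight `x ^ (number of edges) n ^ (number of loops)`.

The path can be switched at a hexagon which meets the configuration in exactly one edge, if this edge
is on the path: the edge is replaced by the five other edges of the hexagon (and conversely).  The
proof has four steps: (i) every deep place of the domain which the path visits can be changed, by
boundedly many flips of hexagons, so that the path can be switched there, and each flip changes the
weights by a bounded factor; (ii) the exploration of the places one after the other gives an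
exponential inequality; (iii) the switches of disjoint hexagons are independent given everything
else, so the length is binomial given the rest; (iv) in a ladder of hexagons which separates `a` from
`b` the path is, with a probability bounded from below given the configuration outside, in the deep
part of the ladder.
-/

set_option autoImplicit false

namespace Pool.Agent.Results.MP_4960b8_pr.FluctuationsH81

open Finset Pool.Agent.V7H81.ON

open Classical in
/-- **Theorem.** Let `n, x > 0`.  There is `c > 0` such that for every finite set `D` of hexagons and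
all vertices `a`, `b` with at least one configuration, with `l = |γ|` the length of the path and `I`
its length in the interior:
(1) there are functions `N`, `u` of the configuration such that, for all functions `F` which do not
change when the path is switched at a hexagon `(8k, 4l)`, given `F`, `N` and `u` the length is
`u + 4 Bin(N, x⁴ / (1 + x⁴))`; and `E exp (c I - N) ≤ 1`;
(2) `E (l - y)² ≥ c E I` for all `y`;
(3) `(E F cos (t l + φ))² ≤ E exp (-c I sin² (2t))` for all `t`, `φ` and all such `F`, `|F| ≤ 1`;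
(4) every path `γ₀` has probability at most `exp (-c I(γ₀))`;
(5) `E exp (c I - (l - min l)) ≤ 1` and `E exp (c I - (max l - l)) ≤ 1`.
(6) If `a` and `b` are separated by cuts in the columns of a set `K`, with at most `m` bad rungs, then
`E exp (-lam I) ≤ exp (-cm (1 - exp (-lam)) |K|)` for all `lam ≥ 0`, every path has probability at most
`exp (-cm |K|)`, the laws of `l` and `l + 4` have distance at most `1 / (cm √|K|)`, and
`E (l - y)² ≥ cm |K|` for all `y`.
(7) Straight corridors have many cuts. -/
theorem result (n x : ℝ) (hn : 0 < n) (hx : 0 < x) :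
    (∃ c : ℝ, 0 < c ∧ ∀ (D : Finset Vtx) (a b : Vtx), (∀ h ∈ D, Even (h.1 + h.2)) →
      (Conf D a b).Nonempty →
      -- (1)
      (∃ N u : Finset Edg → ℕ,
        (∀ F : Finset Edg → ℝ,
          (∀ ω ∈ Conf D a b, ∀ k l : ℤ, On (8 * k, 4 * l) a ω →
            F (fl (8 * k, 4 * l) ω) = F ω) →
          ∀ φ : ℕ → ℕ → ℕ → ℝ,
            mean n x D a b (fun ω => F ω * φ (N ω) (u ω) (path a ω).card) =
            mean n x D a b (fun ω => F ω * ∑ k ∈ range (N ω + 1),
              ((N ω).choose k : ℝ) * (x ^ 4 / (1 + x ^ 4)) ^ k *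
                (1 - x ^ 4 / (1 + x ^ 4)) ^ (N ω - k) * φ (N ω) (u ω) (u ω + 4 * k))) ∧
        mean n x D a b (fun ω => Real.exp (c * innerLen D a b (path a ω) - N ω)) ≤ 1) ∧
      -- (2)
      (∀ y : ℝ, c * mean n x D a b (fun ω => innerLen D a b (path a ω)) ≤
        mean n x D a b (fun ω => ((path a ω).card - y) ^ 2)) ∧
      -- (3)
      (∀ F : Finset Edg → ℝ, (∀ ω, |F ω| ≤ 1) →
        (∀ ω ∈ Conf D a b, ∀ k l : ℤ, On (8 * k, 4 * l) a ω →
          F (fl (8 * k, 4 * l) ω) = F ω) →
        ∀ t φ : ℝ, mean n x D a b (fun ω => F ω * Real.cos (t * (path a ω).card + φ)) ^ 2 ≤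
          mean n x D a b (fun ω =>
            Real.exp (-(c * innerLen D a b (path a ω) * Real.sin (2 * t) ^ 2)))) ∧
      -- (4)
      (∀ γ, mean n x D a b (fun ω => if path a ω = γ then 1 else 0) ≤
        Real.exp (-(c * innerLen D a b γ))) ∧
      -- (5)
      (∀ d : ℝ, (∀ ω ∈ Conf D a b, d ≤ (path a ω).card) → mean n x D a b (fun ω =>
        Real.exp (c * innerLen D a b (path a ω) - ((path a ω).card - d))) ≤ 1) ∧
      (∀ d : ℝ, (∀ ω ∈ Conf D a b, ((path a ω).card : ℝ) ≤ d) → mean n x D a b (fun ω =>
        Real.exp (c * innerLen D a b (path a ω) - (d - (path a ω).card))) ≤ 1)) ∧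
    -- (6)
    (∀ m : ℕ, ∃ cm : ℝ, 0 < cm ∧ ∀ (D : Finset Vtx) (a b : Vtx),
      (∀ h ∈ D, Even (h.1 + h.2)) → (Conf D a b).Nonempty →
      ∀ K : Finset ℤ, K.Nonempty → (∀ k ∈ K, IsCut D a b m k) →
        (∀ lam : ℝ, 0 ≤ lam →
          mean n x D a b (fun ω => Real.exp (-(lam * innerLen D a b (path a ω)))) ≤
            Real.exp (-(cm * (1 - Real.exp (-lam)) * K.card))) ∧
        (∀ γ, mean n x D a b (fun ω => if path a ω = γ then 1 else 0) ≤
          Real.exp (-(cm * K.card))) ∧
        (∀ F : Finset Edg → ℝ, (∀ ω, |F ω| ≤ 1) →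
          (∀ ω ∈ Conf D a b, ∀ k l : ℤ, On (8 * k, 4 * l) a ω →
            F (fl (8 * k, 4 * l) ω) = F ω) →
          ∀ g : ℕ → ℝ, (∀ i, |g i| ≤ 1) →
            |mean n x D a b
              (fun ω => F ω * (g (path a ω).card - g ((path a ω).card + 4)))| ≤
              1 / (cm * Real.sqrt K.card)) ∧
        (∀ y : ℝ, cm * K.card ≤ mean n x D a b (fun ω => ((path a ω).card - y) ^ 2))) ∧
    -- (7)
    (∀ (D : Finset Vtx) (a b : Vtx) (p q s s' : ℤ), Corridor D a b p q s s' →
      ∃ K : Finset ℤ, q - p ≤ 8 * K.card + 32 ∧ ∀ k ∈ K, IsCut D a b 13 k) := by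
  have h0 := c0_pos hn hx
  refine ⟨?_, ?_, fun D a b p q s s' H => main_corridor D a b p q s s' H⟩
  · have p1 := cG_pos hn hx
    have p2 : 0 < 16 * x ^ 4 * c0 n x / (374 * (x ^ 4 + 1)) := by positivity
    have p3 : 0 < 4 * c0 n x * x ^ 4 / (374 * (1 + x ^ 4) ^ 2) := by positivity
    have p4 : 0 < c0 n x * (1 - (mui x)⁻¹) / 748 := by
      have h3 : (mui x)⁻¹ < 1 := inv_lt_one_of_one_lt₀ (one_lt_mui hx)
      have : 0 < 1 - (mui x)⁻¹ := by linarith
      positivity
    have p5 : 0 < c0 n x * min (x ^ 4) 1 / 748 := by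
      have h2 : 0 < min (x ^ 4) 1 := lt_min (by positivity) one_pos
      positivity
    obtain ⟨c, hc, q1, q2, q3, q4, q5⟩ : ∃ c : ℝ, 0 < c ∧ c ≤ cG n x ∧
        c ≤ 16 * x ^ 4 * c0 n x / (374 * (x ^ 4 + 1)) ∧
        c ≤ 4 * c0 n x * x ^ 4 / (374 * (1 + x ^ 4) ^ 2) ∧
        c ≤ c0 n x * (1 - (mui x)⁻¹) / 748 ∧ c ≤ c0 n x * min (x ^ 4) 1 / 748 :=
      ⟨min (cG n x) (min (16 * x ^ 4 * c0 n x / (374 * (x ^ 4 + 1)))
        (min (4 * c0 n x * x ^ 4 / (374 * (1 + x ^ 4) ^ 2))
        (min (c0 n x * (1 - (mui x)⁻¹) / 748) (c0 n x * min (x ^ 4) 1 / 748)))),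
        lt_min p1 (lt_min p2 (lt_min p3 (lt_min p4 p5))), min_le_left _ _,
        (min_le_right _ _).trans (min_le_left _ _),
        (min_le_right _ _).trans ((min_le_right _ _).trans (min_le_left _ _)),
        (min_le_right _ _).trans ((min_le_right _ _).trans
          ((min_le_right _ _).trans (min_le_left _ _))),
        (min_le_right _ _).trans ((min_le_right _ _).trans
          ((min_le_right _ _).trans (min_le_right _ _)))⟩
    have q6 : c ≤ c0 n x / 748 := q1
    refine ⟨c, hc, ?_⟩
    intro D a b hD hne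
    have hZ := Z_pos (D := D) (a := a) (b := b) hn hx hne
    have hw := fun ω => (weight_pos hn hx a ω).le
    have hin : ∀ ω, innerLen D a b (path a ω) = inner D a b ω := fun ω => rfl
    simp only [hin]
    refine ⟨⟨Sn (Fam D a b) a, shortLen D a b, ?_, ?_⟩, ?_, ?_, ?_, ?_, ?_⟩
    · intro F hF φ
      unfold mean
      congr 1
      exact law hD hx F hF φ
    · refine mean_le hZ ?_
      rw [one_mul]
      refine le_trans (sum_le_sum fun ω _ => ?_) (exp_bound hD hn hx)
      refine mul_le_mul_of_nonneg_left ?_ (hw ω)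
      rw [Real.exp_le_exp]
      have h1 : (0 : ℝ) ≤ inner D a b ω := Nat.cast_nonneg _
      have h2 := mul_le_mul_of_nonneg_right q1 h1
      linarith
    · intro y
      refine le_mean hZ (le_trans ?_ (variance_inner hD hn hx y))
      unfold mean
      rw [mul_assoc, div_mul_cancel₀ _ hZ.ne']
      refine mul_le_mul_of_nonneg_right q2 ?_
      exact sum_nonneg fun ω _ => mul_nonneg (hw ω) (Nat.cast_nonneg _)
    · intro F hF1 hF t φ
      have h1 := cos_inner hD hn hx t φ F (Fam_inv hF) hF1
      unfold mean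
      rw [div_pow, div_le_iff₀ (by positivity)]
      refine h1.trans ?_
      have h2 : ∀ A : ℝ, A / Z n x D a b * Z n x D a b ^ 2 = Z n x D a b * A := by
        intro A
        field_simp
      rw [h2]
      refine mul_le_mul_of_nonneg_left (sum_le_sum fun ω _ => ?_) hZ.le
      refine mul_le_mul_of_nonneg_left ?_ (hw ω)
      rw [Real.exp_le_exp, neg_le_neg_iff]
      refine mul_le_mul_of_nonneg_right ?_ (sq_nonneg _)
      exact mul_le_mul_of_nonneg_right q3 (Nat.cast_nonneg _)
    · intro γ
      refine (mean_le hZ (ent_inner hD hn hx γ)).trans ?_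
      rw [Real.exp_le_exp, neg_le_neg_iff]
      exact mul_le_mul_of_nonneg_right q4 (Nat.cast_nonneg _)
    · intro d hd
      refine mean_le hZ ?_
      rw [one_mul]
      refine le_trans (sum_le_sum fun ω _ => ?_) (short_inner hD hn hx d hd)
      refine mul_le_mul_of_nonneg_left ?_ (hw ω)
      rw [Real.exp_le_exp]
      have h1 : (0 : ℝ) ≤ inner D a b ω := Nat.cast_nonneg _
      have h2 := mul_le_mul_of_nonneg_right q5 h1
      linarith
    · intro d hd
      refine mean_le hZ ?_
      rw [one_mul]
      refine le_trans (sum_le_sum fun ω _ => ?_) (long_inner hD hn hx d hd)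
      refine mul_le_mul_of_nonneg_left ?_ (hw ω)
      rw [Real.exp_le_exp]
      have h1 : (0 : ℝ) ≤ inner D a b ω := Nat.cast_nonneg _
      have h2 := mul_le_mul_of_nonneg_right q6 h1
      linarith
  · intro m
    obtain ⟨c', hc', hmain⟩ := main_cut n x hn hx m
    have p1 := c1_pos hn hx m
    obtain ⟨cm, hcm, r1, r2⟩ : ∃ cm : ℝ, 0 < cm ∧ cm ≤ c' ∧ cm ≤ c1 n x m :=
      ⟨min c' (c1 n x m), lt_min hc' p1, min_le_left _ _, min_le_right _ _⟩
    refine ⟨cm, hcm, ?_⟩
    intro D a b hD hne K hKne hK
    have hZ := Z_pos (D := D) (a := a) (b := b) hn hx hne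
    have hw := fun ω => (weight_pos hn hx a ω).le
    obtain ⟨g1, -, -, g4, -, g6⟩ := hmain D a b K hD hne hKne hK
    have hKc : (0 : ℝ) < K.card := by exact_mod_cast card_pos.2 hKne
    have hsK : 0 < Real.sqrt K.card := Real.sqrt_pos.2 hKc
    have e0 : cm * (K.card : ℝ) ≤ c' * K.card := mul_le_mul_of_nonneg_right r1 hKc.le
    have e1 : Real.exp (-(c' * K.card)) ≤ Real.exp (-(cm * K.card)) := by
      rw [Real.exp_le_exp, neg_le_neg_iff]
      exact e0
    have e2 : 1 / (c' * Real.sqrt K.card) ≤ 1 / (cm * Real.sqrt K.card) :=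
      one_div_le_one_div_of_le (by positivity) (mul_le_mul_of_nonneg_right r1 hsK.le)
    refine ⟨?_, fun γ => (g1 γ).trans e1, fun F hF1 hF g hg => ((g4 F hF1 hF).2 g hg).trans e2,
      fun y => e0.trans (g6 y)⟩
    intro lam hl
    unfold IsCut at hK
    choose! s s' hcut using hK
    have hin : ∀ ω, innerLen D a b (path a ω) = inner D a b ω := fun ω => rfl
    simp only [hin]
    refine (mean_le hZ (inner_cuts hD hn hx K hcut hl)).trans ?_
    rw [Real.exp_le_exp, neg_le_neg_iff]
    have he1 : Real.exp (-lam) ≤ 1 := Real.exp_le_one_iff.2 (by linarith)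
    refine mul_le_mul_of_nonneg_right ?_ hKc.le
    exact mul_le_mul_of_nonneg_right r2 (by linarith)

end Pool.Agent.Results.MP_4960b8_pr.FluctuationsH81
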