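import Pool.Agent.V7H98.ON.All

/-!
# MP_4960b8_pr: length and area of the path of the O(n) loop model, for all n > 0 and all x > 0

The start files of this problem treat the length and the area of the path for `n = 0` (self-avoiding
walk, without loops). This file treats the O(n) loop model with loops, for all `n > 0` and `x > 0`,
in particular for `0 < n ≤ 2` at `x = x_c(n)` (Q1) and at all `x > x_c(n)` (Q2): the joint law of the
length of the path and of the area to one side of it is a mixture of laws of sums of independent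
binomial variables, whose numbers are both at least a constant times the length, outside an event on
which the length has a bounded exponential moment.

The configurations are described by the spins of the hexagons: the edges of the configuration are
the edges between different spins, the path has plus on its left and minus on its right.

The proof: the path is explored from `a`. When it enters a new flower (a hexagon `c` with its six
neighbours) it has, by finite energy, a probability bounded below to pass between plus and minus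
neighbours of `c` in the pattern two minus, four plus or two plus, four minus; then the change of the
spin of `c` changes the length by two and the area by one hexagon, and does not change the number of
the loops. These changes commute.
-/

set_option autoImplicit false

namespace Pool.Agent.Results.MP_4960b8_pr.LengthAreaAllNH98

open scoped Classical

/-- The directions. The hexagons are the points of `ℤ × ℤ`; the neighbours of the hexagon `c` are the
hexagons `c + dir k`, in cyclic order. -/
def dir : ZMod 6 → ℤ × ℤ := ![(1, 0), (0, 1), (-1, 1), (-1, 0), (0, -1), (1, -1)]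

/-- The oriented edges of the honeycomb lattice: the hexagon on the left of `e` is `e.1` and the
hexagon on the right is `e.1 + dir e.2`. -/
abbrev Edge := (ℤ × ℤ) × ZMod 6

/-- The hexagon on the right of the edge. -/
def right (e : Edge) : ℤ × ℤ := e.1 + dir e.2

/-- The third hexagon at the end of the edge. -/
def front (e : Edge) : ℤ × ℤ := e.1 + dir (e.2 + 1)

/-- The third hexagon at the beginning of the edge. -/
def back (e : Edge) : ℤ × ℤ := e.1 + dir (e.2 - 1)

/-- Spins of the hexagons: `true` is plus, `false` is minus. -/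
abbrev Spins := ℤ × ℤ → Bool

/-- The oriented edge `e` is a wall: plus on the left, minus on the right. An edge between different
spins is a wall in exactly one of its two orientations. -/
def Wall (σ : Spins) (e : Edge) : Prop := σ e.1 = true ∧ σ (right e) = false

/-- The wall after the wall `e`: it turns right around the hexagon on the right if the hexagon in
front is plus, and left around the hexagon on the left if it is minus (`e` itself if `e` is not a
wall). -/
noncomputable def next (σ : Spins) (e : Edge) : Edge :=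
  if Wall σ e then (if σ (front e) = true then (front e, e.2 - 1) else (e.1, e.2 + 1)) else e

/-- `e` and `e'` lie on the same curve of walls. -/
def Same (σ : Spins) (e e' : Edge) : Prop := ∃ k : ℕ, (next σ)^[k] e = e' ∨ (next σ)^[k] e' = e

/-- The edges of the hexagons of `D` (with the left or the right hexagon in `D`). -/
noncomputable def edges (D : Finset (ℤ × ℤ)) : Finset Edge :=
  (D ×ˢ (Finset.univ : Finset (ZMod 6))) ∪
    (D ×ˢ (Finset.univ : Finset (ZMod 6))).image fun e => (e.1 - dir e.2, e.2)

/-- The spins which are equal to `τ` outside `D` (`A` is the set of the hexagons of `D` with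
spin plus). -/
noncomputable def confs (D : Finset (ℤ × ℤ)) (τ : Spins) : Finset Spins :=
  D.powerset.image fun A f => if f ∈ D then decide (f ∈ A) else τ f

/-- The number of the edges of the configuration in `D`. -/
noncomputable def walls (D : Finset (ℤ × ℤ)) (σ : Spins) : ℕ := ((edges D).filter (Wall σ)).card

/-- `O` is a closed loop: a finite set of edges which consists of all edges on the same curve as a
wall. -/
def IsLoop (σ : Spins) (O : Finset Edge) : Prop := ∃ e, Wall σ e ∧ ∀ e', e' ∈ O ↔ Same σ e e'

/-- The number of the closed loops in `D`. -/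
noncomputable def loops (D : Finset (ℤ × ℤ)) (σ : Spins) : ℕ :=
  ((edges D).powerset.filter (IsLoop σ)).card

/-- The weight of the O(n) loop model. -/
noncomputable def weight (x n : ℝ) (D : Finset (ℤ × ℤ)) (σ : Spins) : ℝ :=
  x ^ walls D σ * n ^ loops D σ

/-- The mean value of `f` in the O(n) loop model in `D` with boundary condition `τ`. -/
noncomputable def mean (x n : ℝ) (D : Finset (ℤ × ℤ)) (τ : Spins) (f : Spins → ℝ) : ℝ :=
  (∑ σ ∈ confs D τ, weight x n D σ * f σ) / ∑ σ ∈ confs D τ, weight x n D σ

/-- Outside `D` the spins `τ` have only one wall which points to a hexagon of `D`, namely `a`, and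
only one wall which comes from a hexagon of `D`, namely `b`. So there is one path, which enters `D`
after `a` and leaves `D` with `b`. -/
structure Dobrushin (D : Finset (ℤ × ℤ)) (τ : Spins) (a b : Edge) : Prop where
  wall_a : Wall τ a
  left_a : a.1 ∉ D
  right_a : right a ∉ D
  front_a : front a ∈ D
  wall_b : Wall τ b
  left_b : b.1 ∉ D
  right_b : right b ∉ D
  back_b : back b ∈ D
  enter : ∀ e, Wall τ e → e.1 ∉ D → right e ∉ D → front e ∈ D → e = a
  leave : ∀ e, Wall τ e → e.1 ∉ D → right e ∉ D → back e ∈ D → e = b

/-- The edges of the path in `D`. -/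
noncomputable def path (D : Finset (ℤ × ℤ)) (σ : Spins) (a : Edge) : Finset Edge :=
  (edges D).filter fun e => Same σ a e

/-- The length of the path. -/
noncomputable def len (D : Finset (ℤ × ℤ)) (σ : Spins) (a : Edge) : ℕ := (path D σ a).card

/-- `∫ x dy` along the path, in coordinates where every hexagon has area `2`: the difference for two
configurations is twice the number of the hexagons between the paths, counted with a sign. (The sum
over the six edges around a hexagon, with the hexagon on the left, is `2`, and the term of an edge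
with the opposite orientation is the opposite.) -/
noncomputable def area (D : Finset (ℤ × ℤ)) (σ : Spins) (a : Edge) : ℤ :=
  ∑ e ∈ path D σ a, if e.2 = 0 then 2 * e.1.1 else if e.2 = 3 then 2 - 2 * e.1.1 else 0

/-- The hexagon `c` with its six neighbours. -/
noncomputable def flower (c : ℤ × ℤ) : Finset (ℤ × ℤ) :=
  insert c ((Finset.univ : Finset (ZMod 6)).image fun k => c + dir k)

/-- The distance of `a` and `b`. -/
def dist (a b : Edge) : ℤ := max |b.1.1 - a.1.1| |b.1.2 - a.1.2|

/-- The path of `a` passes the hexagon `c` with exactly two or four neighbours minus, which are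
consecutive: for some `m` the neighbours `c + dir (m + 1), …, c + dir (m + r)` are minus and the other
neighbours are plus, `r` is `2` or `4`, and the path contains the wall between `c + dir m` and
`c + dir (m + 1)`, which points to `c`. -/
def Site (σ : Spins) (a : Edge) (c : ℤ × ℤ) : Prop :=
  ∃ (m : ZMod 6) (r : ℕ), (r = 2 ∨ r = 4) ∧
    (∀ j : ℕ, 1 ≤ j → j ≤ 6 → σ (c + dir (m + j)) = decide (r < j)) ∧
    Same σ a (c + dir m, m + 2)

/-- The change of the spin of `c`. -/
noncomputable def flip (σ : Spins) (c : ℤ × ℤ) : Spins := Function.update σ c (!σ c)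

/-- `F` does not change when the spin of a site in `S` outside `V` is changed. For example any
function of the spins of the hexagons which are not in `S \ V`. -/
def Unchanged (S V : Finset (ℤ × ℤ)) (τ : Spins) (a : Edge) (F : Spins → ℝ) : Prop :=
  ∀ σ ∈ confs (S.biUnion flower) τ, ∀ c ∈ S, c ∉ V → Site σ a c → F (flip σ c) = F σ

/-- The mean value of `h (2 (B + B'), 2 (B - B'))` for independent binomial random variables `B` with
parameters `N`, `y / (1 + y)` and `B'` with parameters `M`, `y / (1 + y)`. -/
noncomputable def binMean (y : ℝ) (N M : ℕ) (h : ℤ × ℤ → ℝ) : ℝ :=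
  (∑ j ∈ Finset.range (N + 1), ∑ i ∈ Finset.range (M + 1),
    ((N.choose j : ℝ) * (M.choose i : ℝ) * y ^ (j + i)) *
      h (2 * ((j : ℤ) + i), 2 * ((j : ℤ) - i))) / (1 + y) ^ (N + M)

/-! ### comparison with the definitions of the library -/

theorem next_eq (σ : Spins) (e : Edge) : next σ e = V7H98.ON.T σ e := by
  show _ = V7H98.ON.stp σ e
  unfold next V7H98.ON.stp
  by_cases h : Wall σ e
  · rw [if_pos h, if_pos (show V7H98.ON.Wl σ e from h)]
    rfl
  · rw [if_neg h, if_neg (show ¬ V7H98.ON.Wl σ e from h)]

theorem iter_eq (σ : Spins) (k : ℕ) (e : Edge) : (next σ)^[k] e = (V7H98.ON.T σ ^ k) e := by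
  have h : next σ = V7H98.ON.T σ := funext (next_eq σ)
  rw [h, Equiv.Perm.iterate_eq_pow]

theorem same_eq (σ : Spins) (e e' : Edge) : Same σ e e' ↔ (V7H98.ON.T σ).SameCycle e e' := by
  constructor
  · rintro ⟨k, h | h⟩
    · rw [iter_eq] at h
      exact ⟨k, by rw [zpow_natCast]; exact h⟩
    · rw [iter_eq] at h
      exact Equiv.Perm.SameCycle.symm ⟨k, by rw [zpow_natCast]; exact h⟩
  · rintro ⟨z, h⟩
    rcases Int.eq_nat_or_neg z with ⟨k, rfl | rfl⟩
    · rw [zpow_natCast] at h
      exact ⟨k, Or.inl (by rw [iter_eq]; exact h)⟩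
    · refine ⟨k, Or.inr ?_⟩
      rw [iter_eq, ← h, ← zpow_natCast, ← Equiv.Perm.mul_apply, ← zpow_add]
      simp

theorem loops_eq (D : Finset (ℤ × ℤ)) (σ : Spins) : loops D σ = V7H98.ON.loops D σ := by
  unfold loops V7H98.ON.loops
  refine congrArg Finset.card ?_
  refine Finset.filter_congr fun O _ => ?_
  unfold IsLoop V7H98.ON.IsStr
  simp only [same_eq]
  rfl

theorem weight_eq (x n : ℝ) (D : Finset (ℤ × ℤ)) (σ : Spins) :
    weight x n D σ = V7H98.ON.wt x n D σ := by
  unfold weight V7H98.ON.wt
  rw [loops_eq]
  congr 2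
  unfold walls V7H98.ON.walls
  refine congrArg Finset.card ?_
  refine Finset.filter_congr fun e _ => Iff.rfl

theorem mean_eq (x n : ℝ) (D : Finset (ℤ × ℤ)) (τ : Spins) (f : Spins → ℝ) :
    mean x n D τ f = V7H98.ON.mn x n D τ f := by
  unfold mean V7H98.ON.mn
  simp only [weight_eq]
  rfl

theorem path_eq (D : Finset (ℤ × ℤ)) (σ : Spins) (a : Edge) : path D σ a = V7H98.ON.St D σ a := by
  unfold path V7H98.ON.St
  exact Finset.filter_congr fun e _ => same_eq σ a e

theorem len_eq (D : Finset (ℤ × ℤ)) (σ : Spins) (a : Edge) : len D σ a = V7H98.ON.len D σ a := by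
  unfold len V7H98.ON.len
  rw [path_eq]

theorem area_eq (D : Finset (ℤ × ℤ)) (σ : Spins) (a : Edge) : area D σ a = V7H98.ON.ar D σ a := by
  unfold area V7H98.ON.ar
  rw [path_eq]
  rfl

theorem dob {D : Finset (ℤ × ℤ)} {τ : Spins} {a b : Edge} (h : Dobrushin D τ a b) :
    V7H98.ON.Dob D τ a b :=
  ⟨h.wall_a, h.left_a, h.right_a, h.front_a, h.wall_b, h.left_b, h.right_b, h.back_b, h.enter,
    h.leave⟩

theorem site_eq {σ : Spins} {a : Edge} {c : ℤ × ℤ}
    (h : V7H98.ON.SwP σ a c 2 ∨ V7H98.ON.SwP σ a c 4) : Site σ a c := by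
  rcases h with ⟨m, h1, h2⟩ | ⟨m, h1, h2⟩
  · exact ⟨m, 2, Or.inl rfl, h1, (same_eq _ _ _).2 h2⟩
  · exact ⟨m, 4, Or.inr rfl, h1, (same_eq _ _ _).2 h2⟩

theorem unch {S V : Finset (ℤ × ℤ)} {τ : Spins} {a : Edge} {F : Spins → ℝ}
    (h : Unchanged S V τ a F) : ∀ σ ∈ V7H98.ON.Cf (S.biUnion V7H98.ON.fl) τ,
      ∀ q ∈ V7H98.ON.Sl S V a σ, F (V7H98.ON.fp σ q) = F σ := by
  intro σ hσ q hq
  rw [V7H98.ON.Sl, Finset.mem_filter] at hq
  exact h σ hσ q hq.1 hq.2.1 (site_eq hq.2.2)

/-- **Theorem.** Let `n > 0` and `x > 0`. There are `C ≥ 1` and `A : ℕ → ℝ` such that for every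
domain `D` which is a union of disjoint flowers (with the set `S` of centres), and all boundary
conditions with one path, from `a` to `b`, for the path `γ` of the O(n) loop model with parameter `x`
in `D`, with length `|γ|`, and with `R` the distance of `a` and `b`:
the path is `next a, next (next a), …` until `b`, and `R ≤ |γ| + 1`;
(1) `P (|γ| = l) ≤ C / √(R + 1)` for all `l`;
(2) `E (α |γ| + β area γ - t) ^ 2 ≥ (α ^ 2 + β ^ 2) E |γ| / C` for all real `α`, `β`, `t`,
if `R ≥ C`.
Let `V` be a set of at most `R / C` hexagons. There are functions `u` and `N` of the configuration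
with values in `ℤ²` and `ℕ²` such that
(3) `E [exp (|γ| / C); min (N₁, N₂) < |γ| / C] ≤ 2`;
and for all functions `F`, `H` of the configuration which do not change when the spin of a site
outside `V` is changed:
(4) `E h(F, u, N, (|γ|, area γ)) = E h(F, u, N, u + (2 (B + B'), 2 (B - B')))` for all
functions `h`, where, given the configuration, `B` and `B'` are independent and binomial with
parameters `N₁`, `x² / (1 + x²)` and `N₂`, `x² / (1 + x²)`.
If moreover `|F| ≤ 1`, then
(5) `|E [F cos (α |γ| + β area γ + φ)]| ≤ E [|F| exp (- m |γ| / C)] + C exp (- R / C)` for all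
real `α`, `β`, `φ`, where `m` is the minimum of `sin² (α + β)` and `sin² (α - β)`;
(6) `|E [F ∑ (-1)^i C(k,i) g(|γ| + 2 i)]| ≤ A k (E [|F| (|γ| + 1)^(-k/2)] + exp (- R / C))` for all
`k` and all functions `g` with `|g| ≤ 1`;
(7) the same with `area γ` for the first `|γ|`;
(8) `|∑ (-1)^i C(k,i) E [F; |γ| + 2 i = l]| ≤ A (k+1) (E [|F| (|γ| + 1)^(-(k+1)/2)] + exp (- R / C))`
for all `k` and `l`;
(9) `E [|F| (α |γ| + β area γ - H) ^ 2] ≥ (α ^ 2 + β ^ 2) (E [|F| |γ|] / C - exp (- R / C))`. -/
theorem result (n x : ℝ) (hn : 0 < n) (hx : 0 < x) :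
    ∃ C : ℝ, 1 ≤ C ∧ ∃ A : ℕ → ℝ, ∀ (S : Finset (ℤ × ℤ)) (τ : Spins) (a b : Edge),
      (∀ c ∈ S, ∀ c' ∈ S, c ≠ c' → Disjoint (flower c) (flower c')) →
      Dobrushin (S.biUnion flower) τ a b →
      (∀ σ ∈ confs (S.biUnion flower) τ,
        (next σ)^[len (S.biUnion flower) σ a + 1] a = b ∧
        path (S.biUnion flower) σ a =
          (Finset.Icc 1 (len (S.biUnion flower) σ a)).image (fun j => (next σ)^[j] a) ∧
        dist a b ≤ len (S.biUnion flower) σ a + 1) ∧
      (∀ l : ℤ, mean x n (S.biUnion flower) τ
        (fun σ => if (len (S.biUnion flower) σ a : ℤ) = l then 1 else 0) ≤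
          C / Real.sqrt ((dist a b : ℝ) + 1)) ∧
      (C ≤ dist a b → ∀ α β t : ℝ, (α ^ 2 + β ^ 2) *
        mean x n (S.biUnion flower) τ (fun σ => (len (S.biUnion flower) σ a : ℝ)) ≤
        C * mean x n (S.biUnion flower) τ (fun σ => (α * (len (S.biUnion flower) σ a : ℝ) +
          β * (area (S.biUnion flower) σ a : ℝ) - t) ^ 2)) ∧
      ∀ V : Finset (ℤ × ℤ), C * V.card ≤ dist a b →
      ∃ (u : Spins → ℤ × ℤ) (N : Spins → ℕ × ℕ),
        mean x n (S.biUnion flower) τ (fun σ => if C * (min (N σ).1 (N σ).2 : ℕ) <
          len (S.biUnion flower) σ a then Real.exp (len (S.biUnion flower) σ a / C) else 0) ≤ 2 ∧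
        ∀ F : Spins → ℝ, Unchanged S V τ a F →
          (∀ h : ℝ → ℤ × ℤ → ℕ × ℕ → ℤ × ℤ → ℝ,
            mean x n (S.biUnion flower) τ (fun σ => h (F σ) (u σ) (N σ)
              ((len (S.biUnion flower) σ a : ℤ), area (S.biUnion flower) σ a)) =
            mean x n (S.biUnion flower) τ (fun σ => binMean (x ^ 2) (N σ).1 (N σ).2
              (fun z => h (F σ) (u σ) (N σ) (u σ + z)))) ∧
          ((∀ σ ∈ confs (S.biUnion flower) τ, |F σ| ≤ 1) →
            (∀ α β φ m : ℝ, 0 ≤ m → m ≤ Real.sin (α + β) ^ 2 → m ≤ Real.sin (α - β) ^ 2 →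
              |mean x n (S.biUnion flower) τ (fun σ => F σ * Real.cos
                (α * (len (S.biUnion flower) σ a : ℝ) +
                  β * (area (S.biUnion flower) σ a : ℝ) + φ))| ≤
              mean x n (S.biUnion flower) τ
                (fun σ => |F σ| * Real.exp (-(m * (len (S.biUnion flower) σ a : ℝ) / C))) +
                C * Real.exp (-(dist a b / C))) ∧
            (∀ (k : ℕ) (g : ℤ → ℝ), (∀ z, |g z| ≤ 1) →
              |mean x n (S.biUnion flower) τ (fun σ => F σ *
                ∑ i ∈ Finset.range (k + 1), (-1 : ℝ) ^ i *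
                  (k.choose i : ℝ) * g ((len (S.biUnion flower) σ a : ℤ) + 2 * i))| ≤
              A k * (mean x n (S.biUnion flower) τ
                (fun σ => |F σ| / Real.sqrt ((len (S.biUnion flower) σ a : ℝ) + 1) ^ k) +
                Real.exp (-(dist a b / C)))) ∧
            (∀ (k : ℕ) (g : ℤ → ℝ), (∀ z, |g z| ≤ 1) →
              |mean x n (S.biUnion flower) τ (fun σ => F σ *
                ∑ i ∈ Finset.range (k + 1), (-1 : ℝ) ^ i *
                  (k.choose i : ℝ) * g (area (S.biUnion flower) σ a + 2 * i))| ≤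
              A k * (mean x n (S.biUnion flower) τ
                (fun σ => |F σ| / Real.sqrt ((len (S.biUnion flower) σ a : ℝ) + 1) ^ k) +
                Real.exp (-(dist a b / C)))) ∧
            (∀ (k : ℕ) (l : ℤ),
              |mean x n (S.biUnion flower) τ (fun σ => F σ *
                ∑ i ∈ Finset.range (k + 1), (-1 : ℝ) ^ i * (k.choose i : ℝ) *
                  (if (len (S.biUnion flower) σ a : ℤ) + 2 * i = l then 1 else 0))| ≤
              A (k + 1) * (mean x n (S.biUnion flower) τ
                (fun σ => |F σ| / Real.sqrt ((len (S.biUnion flower) σ a : ℝ) + 1) ^ (k + 1)) +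
                Real.exp (-(dist a b / C)))) ∧
            (∀ H : Spins → ℝ, Unchanged S V τ a H →
              ∀ α β : ℝ, (α ^ 2 + β ^ 2) * (mean x n (S.biUnion flower) τ
                (fun σ => |F σ| * (len (S.biUnion flower) σ a : ℝ)) -
                  C * Real.exp (-(dist a b / C))) ≤
                C * mean x n (S.biUnion flower) τ (fun σ => |F σ| *
                  (α * (len (S.biUnion flower) σ a : ℝ) +
                    β * (area (S.biUnion flower) σ a : ℝ) - H σ) ^ 2))) := by
  obtain ⟨C, hC, A, h⟩ := V7H98.ON.all_in hx hn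
  refine ⟨C, hC, A, ?_⟩
  intro S τ a b hdis hD
  obtain ⟨h1, h2, h3⟩ := h S τ a b hdis (dob hD)
  simp only [mean_eq, len_eq, area_eq]
  refine ⟨fun σ hσ => ?_, h1, h2, fun V hV => ?_⟩
  · obtain ⟨g1, g2⟩ := (dob hD).steps hσ
    refine ⟨?_, ?_, (dob hD).len_ge hσ⟩
    · rw [iter_eq]
      exact g1
    · rw [path_eq]
      refine Eq.trans g2 ?_
      refine Finset.image_congr fun j _ => ?_
      exact (iter_eq σ j a).symm
  · obtain ⟨g1, g2⟩ := h3 V hV
    refine ⟨V7H98.ON.uu S (S.biUnion flower) V a, V7H98.ON.NN S V a, g1, fun F hF => ?_⟩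
    obtain ⟨g3, g4⟩ := g2 F (unch hF)
    refine ⟨fun h' => g3 h', fun hF1 => ?_⟩
    obtain ⟨g5, g6, g7, g8, g9⟩ := g4 hF1
    exact ⟨g5, g6, g7, g8, fun H hH => g9 H (unch hH)⟩

end Pool.Agent.Results.MP_4960b8_pr.LengthAreaAllNH98
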