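import Pool.Agent.V7H29.OL.Brg
import Pool.Agent.V7H29.OL.Hxg

set_option autoImplicit false

/-!
The O(n) loop model with a path on the honeycomb lattice, for every real `n` with `-2 < n ≤ 2`, at
`x = x_c(n) = (2 + √(2-n))^(-1/2)` (Q1) and at the dense point `x = (2 - √(2-n))^(-1/2)` (one value
`x > x_c(n)` of Q2), in all convex lattice hexagons (with the triangles, trapezoids,
parallelograms and pentagons among them): two exact relations between the partition functions of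
the paths from a boundary point to the sides.
-/

namespace Pool.Agent.Results.MP_4960b8_pr.LoopHexagonH29

/-- adjacency of the honeycomb lattice in brick-wall coordinates -/
def Adj (p q : ℤ × ℤ) : Prop :=
  q - p = (1, 0) ∨ q - p = (-1, 0) ∨
  (q - p = (0, 1) ∧ Even (p.1 + p.2)) ∨
  (q - p = (0, -1) ∧ Even (q.1 + q.2))

/-- `e` is the set of the edges of a loop (closed self-avoiding path) `f 0, f 1, …, f m = f 0` -/
def IsLoop (e : Finset (Sym2 (ℤ × ℤ))) : Prop :=
  ∃ (m : ℕ) (f : ℕ → ℤ × ℤ), 3 ≤ m ∧ Set.InjOn f (Set.Iio m) ∧ f m = f 0 ∧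
    (∀ i < m, Adj (f i) (f (i + 1))) ∧
    e = (Finset.range m).image (fun i => s(f i, f (i + 1)))

/-- the loop configurations in `A`: finite sets of loops with all their vertices in `A`, no two of
which have a common vertex -/
def LoopConfigs (A : Set (ℤ × ℤ)) : Set (Finset (Finset (Sym2 (ℤ × ℤ)))) :=
  {L | (∀ e ∈ L, IsLoop e ∧ ∀ s ∈ e, ∀ v ∈ s, v ∈ A) ∧
    ∀ e ∈ L, ∀ e' ∈ L, e ≠ e' → ∀ s ∈ e, ∀ s' ∈ e', ∀ v, ¬ (v ∈ s ∧ v ∈ s')}

/-- the partition function of the loops in `A`: `n` for each loop and `x` for each edge -/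
noncomputable def Zloops (n x : ℝ) (A : Set (ℤ × ℤ)) : ℝ :=
  ∑ᶠ L ∈ LoopConfigs A, n ^ L.card * x ^ (∑ e ∈ L, e.card)

/-- the self-avoiding paths `γ 0 = (0,0), γ 1 = (1,0), γ 2, …, γ (m+1)` with `γ 1, …, γ m` in `D`
and `γ (m+1)` outside `D` and in `Q` -/
def Paths (D Q : Set (ℤ × ℤ)) (m : ℕ) : Set (Fin (m + 2) → ℤ × ℤ) :=
  {γ | (γ 0 = (0, 0) ∧ γ 1 = (1, 0) ∧ Function.Injective γ ∧
      (∀ i : Fin (m + 1), Adj (γ i.castSucc) (γ i.succ)) ∧
      ∀ i : Fin (m + 1), i ≠ 0 → γ i.castSucc ∈ D) ∧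
    γ (Fin.last (m + 1)) ∉ D ∧ γ (Fin.last (m + 1)) ∈ Q}

/-- the sum of `x ^ (number of edges) * n ^ (number of loops)` over all configurations formed by a
path `γ` as above, which ends in `Q`, and loops in `D` which avoid `γ` -/
noncomputable def Zend (n x : ℝ) (D Q : Set (ℤ × ℤ)) : ℝ :=
  ∑' m : ℕ, ∑ᶠ γ ∈ Paths D Q m, x ^ (m + 1) * Zloops n x (D \ Set.range γ)

/-- the convex lattice hexagon; the edge from `(0,0)` to `(1,0)` crosses its left side
`v.1 - v.2 = 1` -/
def Hexagon (A B E F G : ℤ) : Set (ℤ × ℤ) :=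
  {v | 1 ≤ v.1 - v.2 ∧ v.1 - v.2 ≤ 2 * E + 2 ∧ -F ≤ v.2 ∧ v.2 ≤ G ∧ -2 * A ≤ v.1 + v.2 ∧
    v.1 + v.2 ≤ 2 * B + 1}

open Pool.Agent.V7H29.OL

/-- **Theorem.** Let `-2 < n ≤ 2`, `σ = √(2-n)` or `σ = -√(2-n)` (that is `σ ^ 2 = 2 - n`, with
`-2 < σ`), and `x = (2+σ)^(-1/2)`.  Let `D` be a convex lattice hexagon, `Z` the partition function
of its loop configurations, and let `a`, `b`, `t`, `u`, `r`, `s`, `o` be the partition functions of
the configurations whose path, started at the left side, leaves `D` through the part of the left side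
above and below its start, through the two sides which meet the left side (above and below), through the
next sides (above and below), and through the side opposite to the left side.  Then
`σ a + (1+σ) x t + r + x o = x² Z + b + x u` and `σ b + (1+σ) x u + s + x o = x² Z + a + x t`. -/
theorem result (n x σ : ℝ) (hn : -2 < n) (hσ : σ ^ 2 = 2 - n) (hσ' : -2 < σ)
    (hx : x = (2 + σ) ^ (-(1 / 2) : ℝ)) (A B E F G : ℤ) (hA : 0 ≤ A) (hB : 0 ≤ B) (hE : 0 ≤ E)
    (hF : 0 ≤ F) (hG : 0 ≤ G) (D : Set (ℤ × ℤ)) (hD : D = Hexagon A B E F G)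
    (Z a b t u r s o : ℝ) (hZ : Z = Zloops n x D)
    (ha : a = Zend n x D {v | v.1 - v.2 < 1 ∧ 1 ≤ v.2})
    (hb : b = Zend n x D {v | v.1 - v.2 < 1 ∧ v.2 ≤ -1})
    (ht : t = Zend n x D {v | G < v.2})
    (hu : u = Zend n x D {v | v.1 + v.2 < -2 * A})
    (hr : r = Zend n x D {v | 2 * B + 1 < v.1 + v.2})
    (hs : s = Zend n x D {v | v.2 < -F})
    (ho : o = Zend n x D {v | 2 * E + 2 < v.1 - v.2}) :
    σ * a + (1 + σ) * x * t + r + x * o = x ^ 2 * Z + b + x * u ∧
      σ * b + (1 + σ) * x * u + s + x * o = x ^ 2 * Z + a + x * t := by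
  have hzl : ∀ A : Finset (ℤ × ℤ), Zloops n x (A : Set (ℤ × ℤ)) = Zp n x A := by
    intro A
    unfold Zloops
    have e : LoopConfigs (A : Set (ℤ × ℤ)) = Cfg (A : Set (ℤ × ℤ)) := by
      unfold LoopConfigs Cfg
      have e2 : ∀ e : Finset (Sym2 (ℤ × ℤ)), IsLoop e ↔ IsLp e := fun e => (isLp_iff e).symm
      simp only [e2]
    rw [e, zl_eq]
  have e : Hexagon A B E F G = ((Hn A B E F G : Finset (ℤ × ℤ)) : Set _) := by
    ext v
    rw [Finset.mem_coe, mem_Hn]
    rfl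
  rw [e] at hD
  have hZs : ∀ S, Zend n x D S = x * ∑ l ∈ EX (Hn A B E F G) S, wt n x (Hn A B E F G) l := by
    classical
    intro S
    rw [hD]
    have h := path_sum n x (Hn A B E F G) (Hn_slit A B E F G) (Hn_01 A B E F G) S (fun _ => 1)
      (Zloops n x) hzl
    simp only [one_mul] at h
    have e2 : EX (Hn A B E F G) S = (EE (Hn A B E F G)).filter (fun l => l.headD (0, 0) ∈ S) := by
      ext l
      rw [mem_EX, Finset.mem_filter]
    rw [e2]
    exact h
  have h := hex_pair hn hσ hσ' hx hA hB hE hF hG (Zend n x D) hZs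
  rw [← hzl, ← hD] at h
  rw [hZ, ha, hb, ht, hu, hr, hs, ho]
  exact h

end Pool.Agent.Results.MP_4960b8_pr.LoopHexagonH29
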