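import Pool.Agent.V7H29.OL.Brg
import Pool.Agent.V7H29.OL.Tri

set_option autoImplicit false

/-!
The O(n) loop model with a path on the honeycomb lattice, for every `n = -2 cos (4π/κ)` with
`8/3 ≤ κ ≤ 8`, at `x = x_c(n) = (2 + √(2-n))^(-1/2)` (`κ ≤ 4`, Q1) and at the dense point
`x = (2 - √(2-n))^(-1/2)` (`κ ≥ 4`, one value `x > x_c(n)` of Q2).  The path starts at the boundary
point `(0,0)` and its other end is a boundary point which is summed over; the loops are in the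
domain and avoid the path.
-/

namespace Pool.Agent.Results.MP_4960b8_pr.LoopWedgesH29

/-- adjacency of the honeycomb lattice in brick-wall coordinates -/
def Adj (p q : ℤ × ℤ) : Prop :=
  q - p = (1, 0) ∨ q - p = (-1, 0) ∨
  (q - p = (0, 1) ∧ Even (p.1 + p.2)) ∨
  (q - p = (0, -1) ∧ Even (q.1 + q.2))

/-- `e` is the set of the edges of a loop (closed self-avoiding path) `f 0, f 1, …, f m = f 0` -/
def IsLoop (e : Finset (Sym2 (ℤ × ℤ))) : Prop :=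
  ∃ (m : ℕ) (f : ℕ → ℤ × ℤ), 3 ≤ m ∧ Set.InjOn f (Set.Iio m) ∧ f m = f 0 ∧
    (∀ i < m, Adj (f i) (f (i + 1))) ∧
    e = (Finset.range m).image (fun i => s(f i, f (i + 1)))

/-- the loop configurations in `A`: finite sets of loops with all their vertices in `A`, no two of
which have a common vertex -/
def LoopConfigs (A : Set (ℤ × ℤ)) : Set (Finset (Finset (Sym2 (ℤ × ℤ)))) :=
  {L | (∀ e ∈ L, IsLoop e ∧ ∀ s ∈ e, ∀ v ∈ s, v ∈ A) ∧
    ∀ e ∈ L, ∀ e' ∈ L, e ≠ e' → ∀ s ∈ e, ∀ s' ∈ e', ∀ v, ¬ (v ∈ s ∧ v ∈ s')}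

/-- the partition function of the loops in `A`: `n` for each loop and `x` for each edge -/
noncomputable def Zloops (n x : ℝ) (A : Set (ℤ × ℤ)) : ℝ :=
  ∑ᶠ L ∈ LoopConfigs A, n ^ L.card * x ^ (∑ e ∈ L, e.card)

/-- the self-avoiding paths `γ 0 = (0,0), γ 1 = (1,0), γ 2, …, γ (m+1)` with `γ 1, …, γ m` in `D`
and `γ (m+1)` outside `D` and in `Q` -/
def Paths (D Q : Set (ℤ × ℤ)) (m : ℕ) : Set (Fin (m + 2) → ℤ × ℤ) :=
  {γ | (γ 0 = (0, 0) ∧ γ 1 = (1, 0) ∧ Function.Injective γ ∧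
      (∀ i : Fin (m + 1), Adj (γ i.castSucc) (γ i.succ)) ∧
      ∀ i : Fin (m + 1), i ≠ 0 → γ i.castSucc ∈ D) ∧
    γ (Fin.last (m + 1)) ∉ D ∧ γ (Fin.last (m + 1)) ∈ Q}

/-- the sum of `x ^ (number of edges) * n ^ (number of loops)` over all configurations formed by a
path `γ` as above, which ends in `Q`, and loops in `D` which avoid `γ` -/
noncomputable def Zend (n x : ℝ) (D Q : Set (ℤ × ℤ)) : ℝ :=
  ∑' m : ℕ, ∑ᶠ γ ∈ Paths D Q m, x ^ (m + 1) * Zloops n x (D \ Set.range γ)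

/-- the lattice wedge of opening `60 j` degrees, `j = 1, …, 6`, with apex `(0,0)`; one of its sides is
the ray `v.2 = 0`, `v.1 ≤ 0`, approached from below; `j = 6` is the slit plane -/
def Wedge (j : ℕ) : Set (ℤ × ℤ) :=
  {v | (v.2 = 0 → 1 ≤ v.1) ∧
    (1 ≤ v.2 → 4 ≤ j ∧ (j = 4 → 1 ≤ v.1 - v.2) ∧ (j = 5 → 2 ≤ v.1 + v.2)) ∧
    (j ≤ 2 → v.1 + v.2 ≤ 1) ∧ (j ≤ 1 → v.1 - v.2 ≤ 2)}

/-- the sites at which the wedge is left, except for `(2,0)` if `j ≤ 2` -/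
def Sides (j : ℕ) : Set (ℤ × ℤ) := {v | v ∉ Wedge j ∧ v ≠ (2, 0)}

/-- the lattice hexagon of radius `N` -/
def Hexagon (N : ℤ) : Set (ℤ × ℤ) :=
  {v | -N ≤ v.2 ∧ v.2 ≤ N ∧ -2 * N ≤ v.1 + v.2 ∧ v.1 + v.2 ≤ 2 * N + 1 ∧
    -2 * N + 1 ≤ v.1 - v.2 ∧ v.1 - v.2 ≤ 2 * N}

/-- the constant of the wedge identity -/
noncomputable def r (j : ℕ) (x θ : ℝ) : ℝ :=
  if j ≤ 2 then x * Real.cos ((3 - j) * θ / 2) else Real.cos ((5 - j) * θ / 2)

open Pool.Agent.V7H29.OL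

theorem loop_iff (e : Finset (Sym2 (ℤ × ℤ))) : IsLoop e ↔ IsLp e := (isLp_iff e).symm

theorem configs_eq (A : Set (ℤ × ℤ)) : LoopConfigs A = Cfg A := by
  unfold LoopConfigs Cfg
  simp only [loop_iff]

theorem zloops_eq (n x : ℝ) (A : Finset (ℤ × ℤ)) : Zloops n x (A : Set (ℤ × ℤ)) = Zp n x A := by
  unfold Zloops
  rw [configs_eq, zl_eq]

theorem zend_eq (n x : ℝ) (D : Finset (ℤ × ℤ)) (hO : ∀ v ∈ D, ¬ H978R2.Hex.Slit v)
    (h01 : ((0, 1) : ℤ × ℤ) ∉ D) (Q : Set (ℤ × ℤ)) (S : Finset (List (ℤ × ℤ)))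
    (hS : ∀ l, l ∈ S ↔ l ∈ EE D ∧ l.headD (0, 0) ∈ Q) :
    Zend n x (D : Set (ℤ × ℤ)) Q = x * ∑ l ∈ S, wt n x D l := by
  classical
  have h := path_sum n x D hO h01 Q (fun _ => 1) (Zloops n x) (zloops_eq n x)
  have e : S = (EE D).filter (fun l => l.headD (0, 0) ∈ Q) := by
    ext l
    rw [hS, Finset.mem_filter]
  simp only [one_mul] at h
  rw [e]
  exact h

theorem wj_slit {j : ℕ} {D : Finset (ℤ × ℤ)} (hD : ∀ v ∈ D, v ∈ Wedge j) :
    ∀ v ∈ D, ¬ H978R2.Hex.Slit v := by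
  intro v hv
  obtain ⟨h1, -⟩ := hD v hv
  unfold H978R2.Hex.Slit
  omega

theorem wj_01 {j : ℕ} (hj : j ≤ 5) {D : Finset (ℤ × ℤ)} (hD : ∀ v ∈ D, v ∈ Wedge j) :
    ((0, 1) : ℤ × ℤ) ∉ D := by
  intro h
  obtain ⟨h1, h2, h3, h4⟩ := hD _ h
  obtain ⟨h5, h6, h7⟩ := h2 (le_refl _)
  simp only at h6 h7
  omega

/-- **Theorem.** Let `8/3 ≤ κ ≤ 8`, `n = -2 cos (4π/κ)`, `θ = π/2 - π/κ`, `σ = √(2-n)` if `κ ≤ 4`
and `σ = -√(2-n)` if `κ ≥ 4`, and `x = (2+σ)^(-1/2)`.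
(1) If `κ ≥ 2 (j+3)/(j+1)` (and `κ ≤ 6` if `j = 6`), then for every finite subset `D` of the wedge of
opening `60 j` degrees which contains `(1,0)` and not `(0,1)`, the partition function of the
configurations whose path ends inside the wedge is at least `r x Zloops D` plus
`|cos ((j+3) θ/2)|` times the one of those whose path ends on the sides.
(2) If `κ ≤ 2 (j+3)/(j+1)`, `j ≤ 5`, then in the wedge intersected with the hexagon of radius `N`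
the same quantities are bounded above, uniformly in `N`. -/
theorem result (κ n x θ σ : ℝ) (hκ1 : 8 / 3 ≤ κ) (hκ2 : κ ≤ 8)
    (hn : n = -2 * Real.cos (4 * Real.pi / κ)) (hθ : θ = Real.pi / 2 - Real.pi / κ)
    (hσ : (κ ≤ 4 ∧ σ = Real.sqrt (2 - n)) ∨ (4 ≤ κ ∧ σ = -Real.sqrt (2 - n)))
    (hx : x = (2 + σ) ^ (-(1 / 2) : ℝ)) :
    -- (1)
    (∀ j : ℕ, 1 ≤ j → j ≤ 6 → 2 * ((j : ℝ) + 3) / (j + 1) ≤ κ → (j = 6 → κ ≤ 6) →
      ∀ D : Finset (ℤ × ℤ), (∀ v ∈ D, v ∈ Wedge j) → (1, 0) ∈ D → (0, 1) ∉ D →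
        0 < r j x θ * (x * Zloops n x D) ∧
        r j x θ * (x * Zloops n x D) +
            |Real.cos ((j + 3) * θ / 2)| * Zend n x D (Sides j) ≤ Zend n x D (Wedge j)) ∧
    -- (2)
    (∀ j : ℕ, 1 ≤ j → j ≤ 5 → κ ≤ 2 * ((j : ℝ) + 3) / (j + 1) → ∀ N : ℤ, 1 ≤ N →
      0 < Real.cos ((j + 1) * θ / 2) ∧ 0 ≤ Real.cos ((j + 3) * θ / 2) ∧
      Real.cos ((j + 1) * θ / 2) * Zend n x (Wedge j ∩ Hexagon N) (Wedge j) +
          Real.cos ((j + 3) * θ / 2) * Zend n x (Wedge j ∩ Hexagon N) (Sides j) ≤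
        r j x θ * (x * Zloops n x (Wedge j ∩ Hexagon N))) := by
  obtain ⟨hA, hs⟩ := ang_sigma hκ1 hκ2 hn hσ hx hθ
  have hx0 := hA.x_pos
  have hN0 := hA.n_nonneg
  have hr : ∀ j, r j x θ = rr j x θ := fun _ => rfl
  have hset : ∀ (j : ℕ) (N : ℤ), Wedge j ∩ Hexagon N = ((Dn j N : Finset (ℤ × ℤ)) : Set _) := by
    intro j N
    ext v
    rw [Finset.mem_coe, mem_Dn]
    rfl
  have hEF : ∀ (j : ℕ) (D : Finset (ℤ × ℤ)), (∀ v ∈ D, v ∈ Wedge j) → ((0, 1) : ℤ × ℤ) ∉ D →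
      Zend n x D (Wedge j) = x * ∑ l ∈ EF j D, wt n x D l := by
    intro j D hD h01
    exact zend_eq n x D (wj_slit hD) h01 (Wedge j) (EF j D) (fun l => Finset.mem_filter)
  have hEN : ∀ (j : ℕ) (D : Finset (ℤ × ℤ)), (∀ v ∈ D, v ∈ Wedge j) → ((0, 1) : ℤ × ℤ) ∉ D →
      Zend n x D (Sides j) = x * ∑ l ∈ EN j D, wt n x D l := by
    intro j D hD h01
    exact zend_eq n x D (wj_slit hD) h01 (Sides j) (EN j D) (fun l => Finset.mem_filter)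
  refine ⟨?_, ?_⟩
  · intro j hj1 hj6 hj hj' D hD h10 h01
    have h3 : ((j : ℝ) + 3) * θ ≤ 3 * Real.pi := by
      rcases Nat.lt_or_ge j 6 with h | h
      · exact three_pi hA j (by omega)
      · have e : j = 6 := by omega
        subst e
        have h4 := hj' rfl
        have hpi := Real.pi_pos
        have hk : (0 : ℝ) < κ := by linarith
        rw [theta_eq hκ1 hθ, mul_div_assoc', div_le_iff₀ (by linarith)]
        push_cast
        nlinarith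
    have h := caseA hA j hj1 hj6 (cond_ge hκ1 hθ j hj) h3 hD h10
    have hrr := hA.rr_pos j hj1 hj6
    have hZ := Zp_ge hN0 hx0.le D
    rw [hEF j D hD h01, hEN j D hD h01, zloops_eq, hr]
    refine ⟨by positivity, ?_⟩
    have h2 := mul_le_mul_of_nonneg_left h hx0.le
    linarith
  · intro j hj1 hj5 hj N hN
    obtain ⟨h1, h2, h3⟩ := caseB hA j hj1 hj5 (cond_le hκ1 hθ j hj) N hN
    refine ⟨h1, h2, ?_⟩
    have h01 := wj_01 hj5 (Dn_Wj j N)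
    rw [hset, hEF j (Dn j N) (Dn_Wj j N) h01, hEN j (Dn j N) (Dn_Wj j N) h01, zloops_eq, hr]
    have h4 := mul_le_mul_of_nonneg_left h3 hx0.le
    linarith

end Pool.Agent.Results.MP_4960b8_pr.LoopWedgesH29
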